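import Pool.Agent.K3h34.BF.Stm

set_option autoImplicit false

namespace Pool.Agent.K3h17.BF

open MvPolynomial
open Pool.Agent.K3h15.DM Pool.Agent.K3h15.BF Pool.Agent.K3h34.BF

theorem eval_sh (n : ℕ) (z : ℂ) (x : Fin n → ℂ) (F : MvPolynomial (Fin n) ℂ) :
    eval x (sh n z F) = eval (fun j : Fin n =>
      (∏ i, (Polynomial.X - Polynomial.C (x i + z))).coeff j) F := by
  have h1 : eval x (sh n z F) = eval (fun j : Fin n => eval x ((hx n z).coeff j)) F := by
    have h0 : ((aeval x : Rx n →ₐ[ℂ] ℂ).comp (sh n z)) =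
        aeval (fun j : Fin n => eval x ((hx n z).coeff j)) := by
      apply MvPolynomial.algHom_ext
      intro j
      rw [AlgHom.comp_apply, sh_X, aeval_X, aeval_eq]
    have h3 := congrArg (fun t => t F) h0
    simpa only [AlgHom.comp_apply, aeval_eq] using h3
  have h2 : ∀ j : Fin n, eval x ((hx n z).coeff j) =
      (∏ i, (Polynomial.X - Polynomial.C (x i + z))).coeff j := by
    intro j
    have : (hx n z).map (eval x) = ∏ i, (Polynomial.X - Polynomial.C (x i + z)) := by
      rw [hx, Polynomial.map_prod]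
      simp
    rw [← this, Polynomial.coeff_map]
  rw [h1]
  simp only [h2]

theorem sum_card (n : ℕ) : (∑ i : Fin n, (Finset.Ioi i).card) * 2 = n * (n - 1) := by
  have h1 : ∀ i : Fin n, (Finset.Ioi i).card = n - 1 - (i : ℕ) := fun i => Fin.card_Ioi i
  rw [Finset.sum_congr rfl fun i _ => h1 i, Fin.sum_univ_eq_sum_range (fun i => n - 1 - i) n,
    Finset.sum_range_reflect (fun i => i) n]
  exact Finset.sum_range_id_mul_two n

theorem cp (n : ℕ) (x : Fin n → ℂ) (j : Fin n) :
    (∏ i, (Polynomial.X - Polynomial.C (x i))).coeff (j : ℕ) =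
      (-1) ^ (n - j) * eval x (esymm (Fin n) ℂ (n - j)) := by
  have h1 : (∏ i, (Polynomial.X - Polynomial.C (x i))) =
      (∏ i : Fin n, (Polynomial.X + Polynomial.C (X i : Rx n))).map (eval fun i => -x i) := by
    rw [Polynomial.map_prod]
    refine Finset.prod_congr rfl fun i _ => ?_
    simp [sub_eq_add_neg]
  rw [h1, Polynomial.coeff_map, MvPolynomial.prod_X_add_C_coeff ℂ (Fin n) (j : ℕ)
    (by simp), Fintype.card_fin, MvPolynomial.esymm, map_sum, map_sum,
    Finset.mul_sum]
  refine Finset.sum_congr rfl fun t ht => ?_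
  rw [map_prod, map_prod]
  simp only [eval_X]
  rw [Finset.mem_powersetCard] at ht
  rw [← ht.2, Finset.prod_neg]

/-- symmetric polynomials of the roots are polynomials of the coefficients -/
theorem sym_exists (n : ℕ) (p : Rx n) (hp : Sym p) : ∃ g : MvPolynomial (Fin n) ℂ,
    ∀ x : Fin n → ℂ, eval (fun j : Fin n => (∏ i, (Polynomial.X - Polynomial.C (x i))).coeff j) g =
      eval x p := by
  obtain ⟨q, hq⟩ := esymmAlgHom_surjective (σ := Fin n) (R := ℂ) (n := n) (by simp) ⟨p, hp⟩
  have hq' : aeval (fun i : Fin n => esymm (Fin n) ℂ (i + 1)) q = p := by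
    rw [← esymmAlgHom_apply, hq]
  refine ⟨aeval (fun i : Fin n => (C ((-1) ^ ((i : ℕ) + 1)) * X (Fin.rev i) :
    MvPolynomial (Fin n) ℂ)) q, fun x => ?_⟩
  have h1 : ((aeval (fun j : Fin n => (∏ i, (Polynomial.X - Polynomial.C (x i))).coeff j) :
      MvPolynomial (Fin n) ℂ →ₐ[ℂ] ℂ).comp (aeval (fun i : Fin n =>
      (C ((-1) ^ ((i : ℕ) + 1)) * X (Fin.rev i) : MvPolynomial (Fin n) ℂ)))) =
      (aeval x : Rx n →ₐ[ℂ] ℂ).comp (aeval (fun i : Fin n => esymm (Fin n) ℂ (i + 1))) := by
    apply MvPolynomial.algHom_ext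
    intro i
    rw [AlgHom.comp_apply, AlgHom.comp_apply, aeval_X, aeval_X, map_mul, aeval_X,
      cp, aeval_C, aeval_eq]
    have h2 : n - ((Fin.rev i : Fin n) : ℕ) = (i : ℕ) + 1 := by
      rw [Fin.val_rev]
      omega
    rw [h2]
    have h3 : ((-1 : ℂ) ^ ((i : ℕ) + 1)) * (-1) ^ ((i : ℕ) + 1) = 1 := by
      rw [← mul_pow]
      simp
    rw [← mul_assoc]
    change (-1 : ℂ) ^ ((i : ℕ) + 1) * (-1) ^ ((i : ℕ) + 1) * _ = _
    rw [h3, one_mul]
  have h4 := congrArg (fun t => t q) h1
  simp only [AlgHom.comp_apply] at h4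
  rw [hq'] at h4
  rw [← aeval_eq, h4, aeval_eq]

theorem dh_hv (n : ℕ) (z : ℂ) : dh n (hv n z) = hz n z := by
  rw [hv, map_sum, Fin.sum_univ_castSucc, hz, add_comm]
  congr 1
  · rw [map_mul, dh, aeval_X, aeval_C]
    simp
  · refine Finset.sum_congr rfl fun j _ => ?_
    rw [map_mul, dh, aeval_X, aeval_C]
    simp

theorem t_Val : StmVal := by
  intro n w l hn
  have hφ : ∀ i : Fin n, (aeval (fun i : Fin n => (C l * X i : Rx n)) : Rx n →ₐ[ℂ] Rx n) (X i) =
      C l * X i := fun i => aeval_X _ _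
  have hφC : ∀ c : ℂ, (aeval (fun i : Fin n => (C l * X i : Rx n)) : Rx n →ₐ[ℂ] Rx n) (C c) =
      C c := fun c => aeval_C _ _
  refine ⟨?_, ?_, ?_, ?_, ?_, ?_, ?_⟩
  · rw [qq, AlgHom.comp_apply, AlgHom.comp_apply, dh, aeval_X]
    simp
  · intro F hF
    rw [qq, AlgHom.comp_apply, AlgHom.comp_apply, sh_disc (disc_dh hF), map_pow, Dl, map_prod]
    have h1 : ∀ i : Fin n, (aeval (fun i : Fin n => (C l * X i : Rx n)) : Rx n →ₐ[ℂ] Rx n)
        (∏ j ∈ Finset.Ioi i, (X j - X i)) =
        C l ^ (Finset.Ioi i).card * ∏ j ∈ Finset.Ioi i, (X j - X i) := by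
      intro i
      rw [map_prod, ← Finset.prod_const, ← Finset.prod_mul_distrib]
      refine Finset.prod_congr rfl fun j _ => ?_
      rw [map_sub, hφ, hφ]
      ring
    rw [Finset.prod_congr rfl fun i _ => h1 i, Finset.prod_mul_distrib, Finset.prod_pow_eq_pow_sum,
      mul_pow, ← pow_mul, sum_card, ← map_pow]
  · intro z
    rw [qq, AlgHom.comp_apply, AlgHom.comp_apply, dh_hv, sh_hz, map_prod]
    refine Finset.prod_congr rfl fun i _ => ?_
    rw [map_sub, map_add, hφ, hφC, hφC, C_sub]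
    ring
  · intro p hl hp
    set τ : Rx n →ₐ[ℂ] Rx n := aeval (fun i : Fin n => (C (1 / l) * (X i - C w) : Rx n)) with hτ
    have hs : Sym (τ p) := by
      intro σ
      have h : ((rename σ : Rx n →ₐ[ℂ] Rx n).comp τ) = τ.comp (rename σ) := by
        apply MvPolynomial.algHom_ext
        intro i
        rw [AlgHom.comp_apply, AlgHom.comp_apply, rename_X, hτ, aeval_X, aeval_X, map_mul, map_sub,
          rename_X, rename_C, rename_C]
      rw [← AlgHom.comp_apply, h, AlgHom.comp_apply, hp σ]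
    obtain ⟨g, hg⟩ := sym_exists n _ hs
    refine ⟨g, MvPolynomial.funext fun x => ?_⟩
    have h1 : ∀ q : Rx n, eval x ((aeval (fun i : Fin n => (C l * X i : Rx n)) :
        Rx n →ₐ[ℂ] Rx n) q) = eval (fun i => l * x i) q := by
      intro q
      have h0 : ((aeval x : Rx n →ₐ[ℂ] ℂ).comp (aeval (fun i : Fin n => (C l * X i : Rx n)) :
          Rx n →ₐ[ℂ] Rx n)) = aeval (fun i => l * x i) := by
        apply MvPolynomial.algHom_ext
        intro j
        rw [AlgHom.comp_apply, aeval_X, aeval_X, map_mul, aeval_X, aeval_C]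
        rfl
      have h3 := congrArg (fun t => t q) h0
      simpa only [AlgHom.comp_apply, aeval_eq] using h3
    have h2 : ∀ (y : Fin n → ℂ) (q : Rx n), eval y (τ q) = eval (fun i => 1 / l * (y i - w)) q := by
      intro y q
      have h0 : ((aeval y : Rx n →ₐ[ℂ] ℂ).comp τ) = aeval (fun i => 1 / l * (y i - w)) := by
        apply MvPolynomial.algHom_ext
        intro j
        rw [AlgHom.comp_apply, hτ, aeval_X, aeval_X, map_mul, map_sub, aeval_X, aeval_C, aeval_C]
        rfl
      have h3 := congrArg (fun t => t q) h0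
      simpa only [AlgHom.comp_apply, aeval_eq] using h3
    rw [h1, eval_sh, hg fun i => l * x i + w, h2]
    congr 2
    funext i
    field_simp
    ring
  · have h1 : Usim n = (⋂ i : Fin n, ⋂ j : Fin n, {x : Fin n → ℝ | i < j → x i < x j}) ∩
        ⋂ i : Fin n, {x : Fin n → ℝ | 0 < x i ∧ x i < 1} := by
      ext x
      simp [Usim]
    rw [h1]
    refine IsOpen.inter (isOpen_iInter_of_finite fun i => isOpen_iInter_of_finite fun j => ?_)
      (isOpen_iInter_of_finite fun i => ?_)
    · by_cases hij : i < j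
      · simp only [hij, true_implies]
        exact isOpen_lt (continuous_apply i) (continuous_apply j)
      · simp only [hij, false_implies]
        exact isOpen_univ
    · exact (isOpen_lt continuous_const (continuous_apply i)).inter
        (isOpen_lt (continuous_apply i) continuous_const)
  · refine (Metric.isBounded_Icc (0 : Fin n → ℝ) 1).subset ?_
    intro x hx
    exact ⟨fun i => (hx.2 i).1.le, fun i => (hx.2 i).2.le⟩
  · refine ⟨fun i => ((i : ℕ) + 1 : ℝ) / (n + 1), ?_, ?_⟩
    · intro i j hij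
      have h1 : ((i : ℕ) : ℝ) < ((j : ℕ) : ℝ) := by exact_mod_cast hij
      have h2 : (0 : ℝ) < (n : ℝ) + 1 := by positivity
      exact div_lt_div_of_pos_right (by linarith) h2
    · intro i
      have h2 : (0 : ℝ) < (n : ℝ) + 1 := by positivity
      have h1 : ((i : ℕ) : ℝ) < (n : ℝ) := by exact_mod_cast i.2
      refine ⟨by positivity, ?_⟩
      rw [div_lt_one h2]
      linarith

end Pool.Agent.K3h17.BF
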